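import Pool.Agent.BEQ.Stmts

set_option autoImplicit false

namespace Pool.Agent.BEQ.H34

open Set Filter Topology MeasureTheory
open scoped InnerProductSpace ENNReal
open Pool.Agent.BEQ

section
variable {H : Type} [NormedAddCommGroup H] [InnerProductSpace ℝ H]

lemma top_le (qfo : QfoStmt) [CompleteSpace H] (T T' : H →L[ℝ] H) (v v' : ℕ → H) (μ μ' : ℕ → ℝ)
    (η : ℝ) (hD : Dg T v μ) (hD' : Dg T' v' μ') (h : ‖T - T'‖ ≤ η) : μ 0 ≤ μ' 0 + η := by
  have h3 := ((qfo H T' v' μ' hD').2.2.1 (v 0)).2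
  have hn : ‖v 0‖ = 1 := hD.on.1 0
  have e1 : ⟪T (v 0), v 0⟫_ℝ = μ 0 := by
    rw [hD.ev 0, real_inner_smul_left, real_inner_self_eq_norm_sq, hn]
    ring
  have e2 : ⟪(T - T') (v 0), v 0⟫_ℝ ≤ η := by
    calc ⟪(T - T') (v 0), v 0⟫_ℝ ≤ ‖(T - T') (v 0)‖ * ‖v 0‖ := real_inner_le_norm _ _
      _ ≤ ‖T - T'‖ * ‖v 0‖ * ‖v 0‖ := by
          exact mul_le_mul_of_nonneg_right ((T - T').le_opNorm _) (norm_nonneg _)
      _ ≤ η := by rw [hn, mul_one, mul_one]; exact h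
  have e3 : ⟪(T - T') (v 0), v 0⟫_ℝ = ⟪T (v 0), v 0⟫_ℝ - ⟪T' (v 0), v 0⟫_ℝ := by
    rw [ContinuousLinearMap.sub_apply, inner_sub_left]
  rw [hn] at h3
  rw [e3, e1] at e2
  linarith

end

theorem eip (qfo : QfoStmt) : EipStmt := by
  intro H _ _ _ T T' v v' μ μ' η hD hD' h
  refine ⟨?_, ?_⟩
  · rw [abs_sub_le_iff]
    have h1 := top_le qfo T T' v v' μ μ' η hD hD' h
    have h2 := top_le qfo T' T v' v μ' μ η hD' hD (by rw [norm_sub_rev]; exact h)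
    constructor <;> linarith
  · intro k'
    by_contra hcon
    rw [not_or, not_exists] at hcon
    obtain ⟨hm, hk⟩ := hcon
    rw [not_le] at hm
    have hη : 0 ≤ η := le_trans (norm_nonneg _) h
    obtain ⟨r, hr, s1, s2⟩ := (qfo H T v μ hD).2.2.2 (v' k') (μ' k')
    have hn : ‖v' k'‖ = 1 := hD'.on.1 k'
    have hle : ‖μ' k' • v' k' - T (v' k')‖ ^ 2 ≤ η ^ 2 := by
      have e : μ' k' • v' k' - T (v' k') = -((T - T') (v' k')) := by
        rw [← hD'.ev k', ContinuousLinearMap.sub_apply, neg_sub]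
      rw [e, norm_neg]
      apply pow_le_pow_left₀ (norm_nonneg _)
      calc ‖(T - T') (v' k')‖ ≤ ‖T - T'‖ * ‖v' k'‖ := (T - T').le_opNorm _
        _ ≤ η := by rw [hn, mul_one]; exact h
    rw [hn] at s1
    have s3 := s1.mul_left (η ^ 2)
    have hsq : ∀ k, η ^ 2 < (μ' k' - μ k) ^ 2 := by
      intro k
      have h1 := hk k
      rw [not_le] at h1
      have h2 : η ^ 2 < |μ k - μ' k'| ^ 2 := pow_lt_pow_left₀ h1 hη two_ne_zero
      rw [sq_abs] at h2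
      calc η ^ 2 < (μ k - μ' k') ^ 2 := h2
        _ = (μ' k' - μ k) ^ 2 := by ring
    have hterm : ∀ k, η ^ 2 * ⟪v k, v' k'⟫_ℝ ^ 2 ≤ (μ' k' - μ k) ^ 2 * ⟪v k, v' k'⟫_ℝ ^ 2 :=
      fun k => mul_le_mul_of_nonneg_right (hsq k).le (sq_nonneg _)
    have hs := hasSum_le hterm s3 s2
    have hmη : η ^ 2 < μ' k' ^ 2 := pow_lt_pow_left₀ hm hη two_ne_zero
    have hr0 : r = 0 := by
      by_contra hne
      have hrp : 0 < r := lt_of_le_of_ne hr (Ne.symm hne)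
      have := mul_lt_mul_of_pos_right hmη hrp
      nlinarith
    have hex : ∃ k, ⟪v k, v' k'⟫_ℝ ≠ 0 := by
      by_contra hcon
      have hz : ∀ k, ⟪v k, v' k'⟫_ℝ ^ 2 = 0 := by
        intro k
        by_contra hne
        exact hcon ⟨k, fun h0 => hne (by rw [h0]; ring)⟩
      have s4 : HasSum (fun k => ⟪v k, v' k'⟫_ℝ ^ 2) 0 := by
        have : (fun k => ⟪v k, v' k'⟫_ℝ ^ 2) = fun _ => (0 : ℝ) := funext hz
        rw [this]
        exact hasSum_zero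
      have := s1.unique s4
      rw [hr0] at this
      norm_num at this
    obtain ⟨k, hk0⟩ := hex
    have hlt : η ^ 2 * ⟪v k, v' k'⟫_ℝ ^ 2 < (μ' k' - μ k) ^ 2 * ⟪v k, v' k'⟫_ℝ ^ 2 :=
      mul_lt_mul_of_pos_right (hsq k) (by positivity)
    have hfin := hasSum_lt hterm hlt s3 s2
    rw [hr0] at hfin
    nlinarith

end Pool.Agent.BEQ.H34
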